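import Mathlib

set_option autoImplicit false
set_option linter.unusedSectionVars false

/-! Symmetric matrices squaring to a sum of squares, and isotropic subspaces. -/

namespace Pool.Agent.H128.Clif

open Matrix Module

/-- every sum of squares is the square of a symmetric matrix with entries in the span, and the
terms are anticommutators with constant symmetric matrices -/
theorem exists_matrix {R : Type*} [CommRing R] [Algebra ℝ R] : ∀ (m : ℕ) (ℓ : Fin m → R),
    ∃ (n : ℕ) (M : Matrix (Fin (n + 1)) (Fin (n + 1)) R)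
      (u : Fin m → Matrix (Fin (n + 1)) (Fin (n + 1)) R), Mᵀ = M ∧
      M * M = (∑ j, ℓ j ^ 2) • (1 : Matrix (Fin (n + 1)) (Fin (n + 1)) R) ∧
      (∀ i a, M i a ∈ Submodule.span ℝ (Set.range ℓ)) ∧ (∀ j, (u j)ᵀ = u j) ∧
      (∀ j, M * u j + u j * M = (2 * ℓ j) • (1 : Matrix (Fin (n + 1)) (Fin (n + 1)) R)) ∧
      ∀ j i a, ∃ c : ℝ, u j i a = algebraMap ℝ R c := by
  intro m
  induction m with
  | zero =>
    intro ℓ
    refine ⟨0, 0, fun j => j.elim0, by simp, by simp, fun i a => ?_, fun j => j.elim0,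
      fun j => j.elim0, fun j => j.elim0⟩
    exact Submodule.zero_mem _
  | succ m ih =>
    intro ℓ
    obtain ⟨n, M, u, hM1, hM2, hM3, hu1, hu2, hu3⟩ := ih (fun j => ℓ j.castSucc)
    let N : Matrix (Fin (n + 1) ⊕ Fin (n + 1)) (Fin (n + 1) ⊕ Fin (n + 1)) R :=
      fromBlocks M (ℓ (Fin.last m) • 1) (ℓ (Fin.last m) • 1) (-M)
    let w : Fin (m + 1) → Matrix (Fin (n + 1) ⊕ Fin (n + 1)) (Fin (n + 1) ⊕ Fin (n + 1)) R :=
      Fin.lastCases (fromBlocks 0 1 1 0) (fun j => fromBlocks (u j) 0 0 (-u j))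
    have hw0 : w (Fin.last m) = fromBlocks 0 1 1 0 := Fin.lastCases_last ..
    have hw1 : ∀ j, w (Fin.castSucc j) = fromBlocks (u j) 0 0 (-u j) := fun j =>
      Fin.lastCases_castSucc ..
    have hN1 : Nᵀ = N := by
      show (fromBlocks M _ _ (-M))ᵀ = fromBlocks M _ _ (-M)
      rw [fromBlocks_transpose, hM1, transpose_neg, hM1, transpose_smul, transpose_one]
    have hN2 : N * N = (∑ j, ℓ j ^ 2) • 1 := by
      show fromBlocks M _ _ (-M) * fromBlocks M _ _ (-M) = _
      rw [fromBlocks_multiply, hM2, Fin.sum_univ_castSucc, ← fromBlocks_one, fromBlocks_smul]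
      congr 1
      · rw [smul_mul_smul_comm, one_mul, ← add_smul, ← pow_two]
      · simp
      · simp
      · rw [smul_mul_smul_comm, one_mul, neg_mul_neg, hM2, ← add_smul, ← pow_two, add_comm (_ ^ 2)]
    have hN3 : ∀ i a, N i a ∈ Submodule.span ℝ (Set.range ℓ) := by
      have h1 : Submodule.span ℝ (Set.range fun j : Fin m => ℓ j.castSucc) ≤
          Submodule.span ℝ (Set.range ℓ) := by
        refine Submodule.span_mono ?_
        rintro _ ⟨j, rfl⟩
        exact ⟨_, rfl⟩
      have h2 : ∀ i a, (ℓ (Fin.last m) • (1 : Matrix (Fin (n + 1)) (Fin (n + 1)) R)) i a ∈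
          Submodule.span ℝ (Set.range ℓ) := by
        intro i a
        rw [Matrix.smul_apply, Matrix.one_apply]
        split_ifs
        · rw [smul_eq_mul, mul_one]
          exact Submodule.subset_span ⟨_, rfl⟩
        · rw [smul_zero]
          exact Submodule.zero_mem _
      rintro (i | i) (a | a)
      · exact h1 (hM3 i a)
      · exact h2 i a
      · exact h2 i a
      · exact Submodule.neg_mem _ (h1 (hM3 i a))
    have hw2 : ∀ j, (w j)ᵀ = w j := by
      intro j
      refine Fin.lastCases ?_ (fun j => ?_) j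
      · rw [hw0, fromBlocks_transpose, transpose_one, transpose_zero]
      · rw [hw1, fromBlocks_transpose, hu1, transpose_neg, hu1, transpose_zero]
    have hw3 : ∀ j, N * w j + w j * N = (2 * ℓ j) • 1 := by
      intro j
      refine Fin.lastCases ?_ (fun j => ?_) j
      · rw [hw0]
        show fromBlocks M _ _ (-M) * _ + _ * fromBlocks M _ _ (-M) = _
        rw [fromBlocks_multiply, fromBlocks_multiply, fromBlocks_add, ← fromBlocks_one,
          fromBlocks_smul]
        congr 1
        · simp [two_mul, add_smul]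
        · simp
        · simp
        · simp [two_mul, add_smul]
      · rw [hw1]
        show fromBlocks M _ _ (-M) * _ + _ * fromBlocks M _ _ (-M) = _
        rw [fromBlocks_multiply, fromBlocks_multiply, fromBlocks_add, ← fromBlocks_one,
          fromBlocks_smul]
        congr 1
        · simpa using hu2 j
        · simp
        · simp
        · simpa using hu2 j
    have hw4 : ∀ j i a, ∃ c : ℝ, w j i a = algebraMap ℝ R c := by
      have c1 : ∀ i a, ∃ c : ℝ, (1 : Matrix (Fin (n + 1)) (Fin (n + 1)) R) i a =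
          algebraMap ℝ R c := by
        intro i a
        rw [Matrix.one_apply]
        split_ifs
        · exact ⟨1, (map_one _).symm⟩
        · exact ⟨0, (map_zero _).symm⟩
      intro j
      refine Fin.lastCases ?_ (fun j => ?_) j
      · rw [hw0]
        rintro (i | i) (a | a)
        · exact ⟨0, (map_zero _).symm⟩
        · exact c1 i a
        · exact c1 i a
        · exact ⟨0, (map_zero _).symm⟩
      · rw [hw1]
        rintro (i | i) (a | a)
        · exact hu3 j i a
        · exact ⟨0, (map_zero _).symm⟩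
        · exact ⟨0, (map_zero _).symm⟩
        · obtain ⟨c, hc⟩ := hu3 j i a
          refine ⟨-c, ?_⟩
          rw [map_neg, ← hc]
          rfl
    let e : Fin (n + 1) ⊕ Fin (n + 1) ≃ Fin (n + n + 1 + 1) :=
      finSumFinEquiv.trans (finCongr (by omega))
    refine ⟨n + n + 1, N.submatrix e.symm e.symm, fun j => (w j).submatrix e.symm e.symm, ?_, ?_,
      fun i a => hN3 _ _, fun j => ?_, fun j => ?_, fun j i a => hw4 _ _ _⟩
    · rw [transpose_submatrix, hN1]
    · rw [submatrix_mul_equiv, hN2]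
      ext i j
      simp [Matrix.one_apply]
    · rw [transpose_submatrix, hw2]
    · rw [submatrix_mul_equiv, submatrix_mul_equiv]
      ext i a
      have h1 := congrFun (congrFun (hw3 j) (e.symm i)) (e.symm a)
      rw [Matrix.add_apply] at h1
      rw [Matrix.add_apply, submatrix_apply, submatrix_apply, h1]
      simp [Matrix.one_apply]

section vec
variable {R ι : Type*} [CommRing R] [Fintype ι] [DecidableEq ι]

lemma dot_symm (M : Matrix ι ι R) (hM : Mᵀ = M) (x y : ι → R) :
    (M *ᵥ x) ⬝ᵥ y = x ⬝ᵥ (M *ᵥ y) := by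
  rw [Matrix.dotProduct_mulVec, ← Matrix.mulVec_transpose, hM]

lemma dot_sq (M : Matrix ι ι R) (hM : Mᵀ = M) (s : R) (hs : M * M = s • 1) (x y : ι → R) :
    (M *ᵥ x) ⬝ᵥ (M *ᵥ y) = s * (x ⬝ᵥ y) := by
  rw [dot_symm M hM, Matrix.mulVec_mulVec, hs, Matrix.smul_mulVec, Matrix.one_mulVec,
    dotProduct_smul, smul_eq_mul]

lemma dot_u [Algebra ℝ R] (M u : Matrix ι ι R) (hM : Mᵀ = M) (hu : uᵀ = u) (c : R)
    (hc : M * u + u * M = (2 * c) • 1) (x : ι → R) : (M *ᵥ x) ⬝ᵥ (u *ᵥ x) = c * (x ⬝ᵥ x) := by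
  have h1 : (M *ᵥ x) ⬝ᵥ (u *ᵥ x) = x ⬝ᵥ ((M * u) *ᵥ x) := by
    rw [dot_symm M hM, Matrix.mulVec_mulVec]
  have h2 : (M *ᵥ x) ⬝ᵥ (u *ᵥ x) = x ⬝ᵥ ((u * M) *ᵥ x) := by
    rw [dotProduct_comm, dot_symm u hu, Matrix.mulVec_mulVec]
  have h3 : (2 : R) * ((M *ᵥ x) ⬝ᵥ (u *ᵥ x)) = 2 * (c * (x ⬝ᵥ x)) := by
    rw [two_mul]
    nth_rewrite 1 [h1]
    rw [h2, ← dotProduct_add, ← Matrix.add_mulVec, hc, Matrix.smul_mulVec, Matrix.one_mulVec,
      dotProduct_smul, smul_eq_mul, mul_assoc]
  have h4 : ((2 : ℝ)⁻¹ • (2 : R)) = 1 := by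
    have h6 : (2 : R) = (2 : ℝ) • (1 : R) := by rw [two_smul, one_add_one_eq_two]
    rw [h6, smul_smul, inv_mul_cancel₀ two_ne_zero, one_smul]
  have h5 := congrArg (fun z => (2 : ℝ)⁻¹ • z) h3
  simp only [← smul_mul_assoc, h4, one_mul] at h5
  exact h5

end vec

/-- the main inequality: if `∑ ℓ_j²` is orthogonal to all products of elements of `U` and the form
`λ((∑ ℓ_j g_j) f²)` is positive definite on `U`, then a space `W` containing all `ℓ_j U` and
`g_j U` has dimension at least `2 dim U` -/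
theorem core {R : Type*} [CommRing R] [Algebra ℝ R] (lam : R →ₗ[ℝ] ℝ) (U W : Submodule ℝ R)
    [FiniteDimensional ℝ U] [FiniteDimensional ℝ W] {m : ℕ} (ℓ g : Fin m → R)
    (hUW : ∀ j, ∀ f ∈ U, ℓ j * f ∈ W) (hgW : ∀ j, ∀ f ∈ U, g j * f ∈ W)
    (hsq : ∀ f ∈ U, ∀ f' ∈ U, lam ((∑ j, ℓ j ^ 2) * (f * f')) = 0)
    (hpos : ∀ f ∈ U, f ≠ 0 → 0 < lam ((∑ j, ℓ j * g j) * f ^ 2)) :
    2 * finrank ℝ U ≤ finrank ℝ W := by
  obtain ⟨n, M, u, hM1, hM2, hM3, hu1, hu2, hu3⟩ := exists_matrix m ℓ
  have hMW : ∀ i a, ∀ f ∈ U, M i a * f ∈ W := by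
    intro i a f hf
    have h1 : ∀ x ∈ Submodule.span ℝ (Set.range ℓ), x * f ∈ W := by
      intro x hx
      induction hx using Submodule.span_induction with
      | mem x hx =>
        obtain ⟨j, rfl⟩ := hx
        exact hUW j f hf
      | zero => rw [zero_mul]; exact Submodule.zero_mem _
      | add x y _ _ hx hy => rw [add_mul]; exact Submodule.add_mem _ hx hy
      | smul r x _ hx => rw [smul_mul_assoc]; exact Submodule.smul_mem _ _ hx
    exact h1 _ (hM3 i a)
  -- the operator
  let ι := Fin (n + 1)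
  let D : (ι → U) →ₗ[ℝ] (ι → W) :=
    { toFun := fun f i => ⟨∑ a, M i a * (f a : R),
          Submodule.sum_mem _ fun a _ => hMW i a _ (f a).2⟩
      map_add' := by
        intro f f'
        refine funext fun i => Subtype.ext ?_
        simp only [Pi.add_apply, Submodule.coe_add, mul_add, Finset.sum_add_distrib]
      map_smul' := by
        intro r f
        refine funext fun i => Subtype.ext ?_
        simp only [Pi.smul_apply, Submodule.coe_smul, mul_smul_comm, RingHom.id_apply,
          Finset.smul_sum] }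
  have hD : ∀ f, (fun i => ((D f i : W) : R)) = M *ᵥ (fun a => (f a : R)) := fun f => rfl
  -- the form
  let B : LinearMap.BilinForm ℝ (ι → W) :=
    LinearMap.mk₂ ℝ (fun f f' => lam (∑ i, (f i : R) * (f' i : R)))
      (fun f f' g => by
        rw [← map_add, ← Finset.sum_add_distrib]
        refine congrArg lam (Finset.sum_congr rfl fun i _ => ?_)
        simp only [Pi.add_apply, Submodule.coe_add]
        ring)
      (fun r f g => by
        rw [← map_smul, Finset.smul_sum]
        refine congrArg lam (Finset.sum_congr rfl fun i _ => ?_)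
        simp only [Pi.smul_apply, Submodule.coe_smul, smul_mul_assoc])
      (fun f g g' => by
        rw [← map_add, ← Finset.sum_add_distrib]
        refine congrArg lam (Finset.sum_congr rfl fun i _ => ?_)
        simp only [Pi.add_apply, Submodule.coe_add]
        ring)
      (fun r f g => by
        rw [← map_smul, Finset.smul_sum]
        refine congrArg lam (Finset.sum_congr rfl fun i _ => ?_)
        simp only [Pi.smul_apply, Submodule.coe_smul, mul_smul_comm])
  have hB : ∀ f f', B f f' = lam ((fun i => (f i : R)) ⬝ᵥ (fun i => (f' i : R))) :=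
    fun f g => rfl
  have hiso : ∀ f f', B (D f) (D f') = 0 := by
    intro f f'
    rw [hB, hD, hD, dot_sq M hM1 _ hM2]
    unfold dotProduct
    rw [Finset.mul_sum, map_sum]
    exact Finset.sum_eq_zero fun i _ => hsq _ (f i).2 _ (f' i).2
  have hnn : ∀ f : U, 0 ≤ lam ((∑ j, ℓ j * g j) * (f : R) ^ 2) := by
    intro f
    by_cases h : (f : R) = 0
    · rw [h, zero_pow two_ne_zero, mul_zero, map_zero]
    · exact (hpos _ f.2 h).le
  have hker : ∀ f, (∀ f', B (D f) f' = 0) → f = 0 := by
    intro f hf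
    have huW : ∀ j i, g j * (u j *ᵥ (fun a => (f a : R))) i ∈ W := by
      intro j i
      have h1 : (u j *ᵥ (fun a => (f a : R))) i ∈ U := by
        show ∑ a, u j i a * (f a : R) ∈ U
        refine Submodule.sum_mem _ fun a _ => ?_
        obtain ⟨c, hc⟩ := hu3 j i a
        rw [hc, ← Algebra.smul_def]
        exact Submodule.smul_mem _ _ (f a).2
      exact hgW j _ h1
    have h0 := hf (fun i => ⟨∑ j, g j * (u j *ᵥ (fun a => (f a : R))) i,
      Submodule.sum_mem _ fun j _ => huW j i⟩)
    rw [hB, hD] at h0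
    have h1 : (M *ᵥ (fun a => (f a : R))) ⬝ᵥ
        (fun i => ∑ j, g j * (u j *ᵥ (fun a => (f a : R))) i) =
        (∑ j, ℓ j * g j) * ((fun a => (f a : R)) ⬝ᵥ (fun a => (f a : R))) := by
      have h2 : (M *ᵥ (fun a => (f a : R))) ⬝ᵥ
        (fun i => ∑ j, g j * (u j *ᵥ (fun a => (f a : R))) i) =
          ∑ j, g j * ((M *ᵥ (fun a => (f a : R))) ⬝ᵥ (u j *ᵥ (fun a => (f a : R)))) := by
        unfold dotProduct
        simp only [Finset.mul_sum]
        rw [Finset.sum_comm]
        refine Finset.sum_congr rfl fun j _ => Finset.sum_congr rfl fun i _ => ?_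
        ring
      rw [h2, Finset.sum_mul]
      refine Finset.sum_congr rfl fun j _ => ?_
      rw [dot_u M (u j) hM1 (hu1 j) (ℓ j) (hu2 j)]
      ring
    have h3 : lam ((∑ j, ℓ j * g j) * ((fun a => (f a : R)) ⬝ᵥ (fun a => (f a : R)))) = 0 := by
      rw [← h1]
      exact h0
    unfold dotProduct at h3
    rw [Finset.mul_sum, map_sum] at h3
    have h4 : ∀ i ∈ (Finset.univ : Finset ι), 0 ≤ lam ((∑ j, ℓ j * g j) *
        ((f i : R) * (f i : R))) := by
      intro i _
      rw [← pow_two]
      exact hnn _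
    rw [Finset.sum_eq_zero_iff_of_nonneg h4] at h3
    refine funext fun i => Subtype.ext ?_
    by_contra h5
    have h6 := hpos _ (f i).2 h5
    rw [pow_two, h3 i (Finset.mem_univ _)] at h6
    exact lt_irrefl _ h6
  have hinj : Function.Injective D := by
    rw [← LinearMap.ker_eq_bot, LinearMap.ker_eq_bot']
    intro f hf
    exact hker f fun g => by rw [hf, map_zero, LinearMap.zero_apply]
  have h1 := LinearMap.BilinForm.finrank_add_finrank_orthogonal' (B := B) (LinearMap.range D)
  have h2 : (LinearMap.range D ⊓ B.ker : Submodule ℝ _) = ⊥ := by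
    rw [eq_bot_iff]
    rintro _ ⟨⟨f, rfl⟩, hf⟩
    have h3 : f = 0 := hker f fun g => by
      have h4 : B (D f) = 0 := hf
      rw [h4, LinearMap.zero_apply]
    rw [h3, map_zero]
    exact Submodule.zero_mem _
  rw [h2, finrank_bot, add_zero] at h1
  have h3 : LinearMap.range D ≤ B.orthogonal (LinearMap.range D) := by
    rintro _ ⟨f, rfl⟩
    rw [LinearMap.BilinForm.mem_orthogonal_iff]
    rintro _ ⟨g, rfl⟩
    exact hiso g f
  have h4 := Submodule.finrank_mono h3
  rw [LinearMap.finrank_range_of_inj hinj] at h1 h4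
  have h5 : finrank ℝ (ι → U) = (n + 1) * finrank ℝ U := by
    rw [Module.finrank_pi_fintype, Finset.sum_const, Finset.card_univ, Fintype.card_fin,
      smul_eq_mul]
  have h6 : finrank ℝ (ι → W) = (n + 1) * finrank ℝ W := by
    rw [Module.finrank_pi_fintype, Finset.sum_const, Finset.card_univ, Fintype.card_fin,
      smul_eq_mul]
  rw [h5] at h1 h4
  rw [h6] at h1
  have h7 : (n + 1) * (2 * finrank ℝ U) ≤ (n + 1) * finrank ℝ W := by nlinarith
  exact Nat.le_of_mul_le_mul_left h7 (Nat.succ_pos n)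

end Pool.Agent.H128.Clif
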