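import Mathlib

set_option autoImplicit false
set_option linter.unusedSectionVars false

/-! Sums of squares from the absence of positive semidefinite functionals. -/

namespace Pool.Agent.H128.Sep

open Module

variable {R : Type*} [CommRing R] [Algebra ℝ R]

/-- sums of squares of elements of `A` -/
def KK (A : Submodule ℝ R) : Set R :=
  {z | ∃ (m : ℕ) (ℓ : Fin m → R), (∀ j, ℓ j ∈ A) ∧ z = ∑ j, ℓ j ^ 2}

lemma KK_zero (A : Submodule ℝ R) : (0 : R) ∈ KK A :=
  ⟨0, fun j => j.elim0, fun j => j.elim0, by simp⟩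

lemma KK_sq (A : Submodule ℝ R) (x : R) (hx : x ∈ A) : x ^ 2 ∈ KK A :=
  ⟨1, fun _ => x, fun _ => hx, by simp⟩

lemma KK_add (A : Submodule ℝ R) (x y : R) (hx : x ∈ KK A) (hy : y ∈ KK A) : x + y ∈ KK A := by
  obtain ⟨m, a, ha, rfl⟩ := hx
  obtain ⟨n, b, hb, rfl⟩ := hy
  refine ⟨m + n, Fin.append a b, fun j => ?_, ?_⟩
  · refine Fin.addCases (fun i => ?_) (fun i => ?_) j
    · rw [Fin.append_left]; exact ha i
    · rw [Fin.append_right]; exact hb i
  · rw [Fin.sum_univ_add]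
    simp [Fin.append_left, Fin.append_right]

lemma KK_smul (A : Submodule ℝ R) (c : ℝ) (hc : 0 ≤ c) (x : R) (hx : x ∈ KK A) : c • x ∈ KK A := by
  obtain ⟨m, a, ha, rfl⟩ := hx
  refine ⟨m, fun j => Real.sqrt c • a j, fun j => Submodule.smul_mem _ _ (ha j), ?_⟩
  rw [Finset.smul_sum]
  refine Finset.sum_congr rfl fun j _ => ?_
  rw [smul_pow, Real.sq_sqrt hc]

theorem sos_of_noPSD (A B : Submodule ℝ R) [FiniteDimensional ℝ B] (hAB : ∀ x ∈ A, x ^ 2 ∈ B)
    (hno : ∀ lam : R →ₗ[ℝ] ℝ, (∀ x ∈ A, 0 ≤ lam (x ^ 2)) → ∀ x ∈ A, lam (x ^ 2) = 0)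
    (y : R) (hy : y ∈ A) :
    ∃ (m : ℕ) (ℓ : Fin m → R), (∀ j, ℓ j ∈ A) ∧ y ^ 2 + ∑ j, ℓ j ^ 2 = 0 := by
  classical
  have hKB : KK A ⊆ B := by
    rintro _ ⟨m, ℓ, hℓ, rfl⟩
    exact Submodule.sum_mem _ fun j _ => hAB _ (hℓ j)
  let S := Submodule.span ℝ (KK A)
  have hSB : S ≤ B := Submodule.span_le.2 hKB
  have hSfin : FiniteDimensional ℝ S := Submodule.finiteDimensional_of_le hSB
  let e := (Module.finBasis ℝ S).equivFun
  let K' : Set (Fin (finrank ℝ S) → ℝ) := {v | ((e.symm v : S) : R) ∈ KK A}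
  have hK0 : (0 : Fin (finrank ℝ S) → ℝ) ∈ K' := by
    show ((e.symm 0 : S) : R) ∈ KK A
    rw [map_zero]
    exact KK_zero A
  have hKadd : ∀ v w, v ∈ K' → w ∈ K' → v + w ∈ K' := by
    intro v w hv hw
    show ((e.symm (v + w) : S) : R) ∈ KK A
    rw [map_add, Submodule.coe_add]
    exact KK_add A _ _ hv hw
  have hKsmul : ∀ (c : ℝ) v, 0 ≤ c → v ∈ K' → c • v ∈ K' := by
    intro c v hc hv
    show ((e.symm (c • v) : S) : R) ∈ KK A
    rw [map_smul, Submodule.coe_smul]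
    exact KK_smul A c hc _ hv
  have hconv : Convex ℝ K' := by
    intro v hv w hw a b ha hb _
    exact hKadd _ _ (hKsmul a v ha hv) (hKsmul b w hb hw)
  have hmem : ∀ z (hz : z ∈ KK A), e ⟨z, Submodule.subset_span hz⟩ ∈ K' := by
    intro z hz
    show ((e.symm (e _) : S) : R) ∈ KK A
    rw [LinearEquiv.symm_apply_apply]
    exact hz
  have hspan : Submodule.span ℝ K' = ⊤ := by
    rw [eq_top_iff]
    intro v _
    have h1 : ∀ z (hz : z ∈ S), e ⟨z, hz⟩ ∈ Submodule.span ℝ K' := by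
      intro z hz
      induction hz using Submodule.span_induction with
      | mem z hz => exact Submodule.subset_span (hmem z hz)
      | zero =>
        have : (⟨0, Submodule.zero_mem S⟩ : S) = 0 := rfl
        rw [this, map_zero]
        exact Submodule.zero_mem _
      | add a b ha hb iha ihb =>
        have : (⟨a + b, Submodule.add_mem S ha hb⟩ : S) = ⟨a, ha⟩ + ⟨b, hb⟩ := rfl
        rw [this, map_add]
        exact Submodule.add_mem _ iha ihb
      | smul r a ha iha =>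
        have : (⟨r • a, Submodule.smul_mem S r ha⟩ : S) = r • ⟨a, ha⟩ := rfl
        rw [this, map_smul]
        exact Submodule.smul_mem _ _ iha
    have h2 := h1 (e.symm v : S) (e.symm v).2
    rwa [Subtype.coe_eta, LinearEquiv.apply_symm_apply] at h2
  have haff : affineSpan ℝ K' = ⊤ := by
    rw [AffineSubspace.affineSpan_eq_top_iff_vectorSpan_eq_top_of_nonempty ℝ _ _ ⟨0, hK0⟩,
      vectorSpan_eq_span_vsub_set_right ℝ hK0]
    have h1 : (fun x : Fin (finrank ℝ S) → ℝ => x -ᵥ (0 : Fin (finrank ℝ S) → ℝ)) '' K' = K' := by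
      ext x
      simp
    rw [h1, hspan]
  have hint : (interior K').Nonempty := (hconv.interior_nonempty_iff_affineSpan_eq_top).2 haff
  by_contra hcon
  push Not at hcon
  have hy2 : y ^ 2 ∈ KK A := KK_sq A y hy
  let w := e ⟨y ^ 2, Submodule.subset_span hy2⟩
  have hw : -w ∉ K' := by
    rintro ⟨m, ℓ, hℓ, h1⟩
    refine hcon m ℓ hℓ ?_
    rw [← h1, map_neg, LinearEquiv.symm_apply_apply, Submodule.coe_neg, add_neg_cancel]
  obtain ⟨f, hf⟩ := geometric_hahn_banach_open_point hconv.interior isOpen_interior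
    (fun h => hw (interior_subset h))
  have hle : ∀ v ∈ K', f v ≤ f (-w) := by
    intro v hv
    have h1 : v ∈ closure (interior K') := by
      rw [hconv.closure_interior_eq_closure_of_nonempty_interior hint]
      exact subset_closure hv
    have h2 : closure (interior K') ⊆ {v | f v ≤ f (-w)} :=
      closure_minimal (fun v hv => (hf v hv).le) (isClosed_le f.continuous continuous_const)
    exact h2 h1
  have hnonpos : ∀ v ∈ K', f v ≤ 0 := by
    intro v hv
    by_contra h1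
    push Not at h1
    obtain ⟨t, ht⟩ := exists_gt (|f (-w)| / f v)
    have h3 : |f (-w)| < t * f v := (div_lt_iff₀ h1).1 ht
    have ht0 : 0 ≤ t := by
      have : 0 ≤ |f (-w)| / f v := div_nonneg (abs_nonneg _) h1.le
      linarith
    have h2 := hle (t • v) (hKsmul t v ht0 hv)
    rw [map_smul, smul_eq_mul] at h2
    have h4 := le_abs_self (f (-w))
    linarith
  obtain ⟨g, hg⟩ := LinearMap.exists_extend ((-(f : (Fin (finrank ℝ S) → ℝ) →ₗ[ℝ] ℝ)).comp
    e.toLinearMap)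
  have hg' : ∀ z (hz : z ∈ KK A), g z = - f (e ⟨z, Submodule.subset_span hz⟩) := by
    intro z hz
    exact LinearMap.congr_fun hg ⟨z, Submodule.subset_span hz⟩
  have h1 := hno g (fun x hx => by
    rw [hg' _ (KK_sq A x hx)]
    have := hnonpos _ (hmem _ (KK_sq A x hx))
    linarith)
  have h2 : ∀ z ∈ KK A, g z = 0 := by
    rintro _ ⟨m, ℓ, hℓ, rfl⟩
    rw [map_sum]
    exact Finset.sum_eq_zero fun j _ => h1 _ (hℓ j)
  obtain ⟨v, hv⟩ := hint
  have h3 := hf v hv
  have hvK' : v ∈ K' := interior_subset hv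
  have hvK : ((e.symm v : S) : R) ∈ KK A := hvK'
  have h4 : f v = 0 := by
    have h5 := h2 _ hvK
    rw [hg' _ hvK] at h5
    have h6 : (⟨((e.symm v : S) : R), Submodule.subset_span hvK⟩ : S) = e.symm v := rfl
    rw [h6, LinearEquiv.apply_symm_apply] at h5
    linarith
  have h5 : f (-w) = 0 := by
    have h6 := h2 _ hy2
    rw [hg' _ hy2] at h6
    rw [map_neg]
    exact h6
  rw [h4, h5] at h3
  exact lt_irrefl _ h3

lemma KK_sum (A : Submodule ℝ R) {ι : Type*} (s : Finset ι) (x : ι → R) (hx : ∀ i ∈ s, x i ∈ KK A) :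
    ∑ i ∈ s, x i ∈ KK A := by
  classical
  induction s using Finset.induction_on with
  | empty => rw [Finset.sum_empty]; exact KK_zero A
  | insert a s ha ih =>
    rw [Finset.sum_insert ha]
    exact KK_add A _ _ (hx a (Finset.mem_insert_self a s))
      (ih fun i hi => hx i (Finset.mem_insert_of_mem hi))

/-- the version for several elements -/
theorem sos_family (A B : Submodule ℝ R) [FiniteDimensional ℝ B] (hAB : ∀ x ∈ A, x ^ 2 ∈ B)
    (hno : ∀ lam : R →ₗ[ℝ] ℝ, (∀ x ∈ A, 0 ≤ lam (x ^ 2)) → ∀ x ∈ A, lam (x ^ 2) = 0)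
    {ι : Type*} [Fintype ι] (y : ι → R) (hy : ∀ i, y i ∈ A) :
    ∃ (m : ℕ) (ℓ : Fin m → R), (∀ j, ℓ j ∈ A) ∧ ∑ i, y i ^ 2 + ∑ j, ℓ j ^ 2 = 0 := by
  have h1 : ∑ i, (-(y i ^ 2)) ∈ KK A := by
    refine KK_sum A _ _ fun i _ => ?_
    obtain ⟨m, ℓ, hℓ, h2⟩ := sos_of_noPSD A B hAB hno (y i) (hy i)
    exact ⟨m, ℓ, hℓ, (eq_neg_of_add_eq_zero_right h2).symm⟩
  obtain ⟨m, ℓ, hℓ, h2⟩ := h1
  refine ⟨m, ℓ, hℓ, ?_⟩
  rw [← h2, Finset.sum_neg_distrib, add_neg_cancel]

end Pool.Agent.H128.Sep
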