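import Pool.Agent.H128.SRing
import Pool.Agent.H128.Clif

set_option autoImplicit false
set_option linter.unusedSectionVars false
set_option linter.unnecessarySimpa false

/-! Dimensions of the Artinian reduction of a homology sphere. -/

namespace Pool.Agent.H128.SDim

open Pool.Agent.Helper611 Pool.Agent.Helper611.ZBase Pool.Agent.Helper611.KRel
  Pool.Agent.Helper611.KVal Pool.Agent.Helper611.UStr Pool.Agent.Helper611.UVal
  Pool.Agent.H252R2.Lef1 Pool.Agent.H252R2.Lef2 Pool.Agent.H252R2.Lef7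
  Pool.Agent.H252R2.CDNum Pool.Agent.H252R2.Top2 Pool.Agent.H128.SRing
open MvPolynomial Module

variable {V : Type} [Fintype V] [LinearOrder V] {d : ℕ} {Γ : Cx V} {p : V → (Fin d → ℝ)}

lemma dual_of_li (hp : ∀ σ ∈ Γ.faces, LinearIndependent ℝ (fun v : σ => p v)) :
    Dual (fun σ => σ ∈ Γ.faces) p := by
  intro σ hσ _ v hv
  have hli := hp σ hσ
  obtain ⟨g, hg⟩ := LinearMap.exists_extend ((Finsupp.lapply (⟨v, hv⟩ : σ) : (σ →₀ ℝ) →ₗ[ℝ] ℝ).comp
    hli.repr)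
  have h1 : ∀ x : σ, g (p x) = (Finsupp.single x (1 : ℝ)) (⟨v, hv⟩ : σ) := by
    intro x
    have h2 : p x ∈ Submodule.span ℝ (Set.range fun v : σ => p v) :=
      Submodule.subset_span ⟨x, rfl⟩
    have h3 := LinearMap.congr_fun hg ⟨p x, h2⟩
    have h4 : hli.repr ⟨p x, h2⟩ = Finsupp.single x 1 := hli.repr_eq_single x _ rfl
    rw [LinearMap.comp_apply, LinearMap.comp_apply] at h3
    have h5 : g (p x) = (Finsupp.lapply (⟨v, hv⟩ : σ)) (hli.repr ⟨p x, h2⟩) := h3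
    rw [h5, h4]
    rfl
  refine ⟨g, ?_, fun x hx hxv => ?_⟩
  · have := h1 ⟨v, hv⟩
    rw [Finsupp.single_eq_same] at this
    exact this
  · have := h1 ⟨x, hx⟩
    rw [Finsupp.single_eq_of_ne (fun h => hxv (Subtype.ext_iff.1 h).symm)] at this
    exact this

lemma exists_nz {φ : Finset V → V → Module.Dual ℝ (Fin d → ℝ)} (hφ : Coord Γ p φ) :
    ∃ e : Fin d → ℝ, Nz Γ φ e := by
  obtain ⟨e, he⟩ := Module.Dual.exists_forall_ne_zero_of_forall_exists
    (ι := {x : Finset V × V // x.1 ∈ Γ.faces ∧ x.2 ∈ x.1}) (fun x => φ x.1.1 x.1.2)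
    (fun x => ⟨p x.1.2, by
      rw [hφ.one _ x.2.1 _ x.2.2]
      exact one_ne_zero⟩)
  exact ⟨e, fun F hF _ v hv => he ⟨(F, v), hF, hv⟩⟩

/-- the dimension of the graded pieces of the Artinian reduction -/
theorem AA_dim (h : Hyp Γ d) (hd : 1 ≤ d)
    (hp : ∀ σ ∈ Γ.faces, LinearIndependent ℝ (fun v : σ => p v)) (k : ℕ) (hk : k ≤ d) :
    (finrank ℝ (AA Γ p k) : ℤ) = hn d (fnum Γ) k := by
  classical
  have hdual := dual_of_li hp
  obtain ⟨φ, hφ⟩ := UNum.exists_coord Γ p h.small hdual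
  obtain ⟨e, hz⟩ := exists_nz hφ
  have hh := St_hn Γ p φ hφ hdual (fun τ k s hk => acyP_of_acy Γ τ k (acy_all h hd τ k hk))
  have hcardF : (Fintype.card (Fc Γ d) : ℤ) = fnum Γ d := by
    unfold fnum Fc
    rw [Fintype.card_subtype]
    congr 2
    ext σ
    simp
  have hsum : ∑ t ∈ Finset.range (d + 1), finrank ℝ (St Γ p t) = Fintype.card (Fc Γ d) := by
    have h1 := sum_hn d (fnum Γ)
    rw [← hcardF] at h1
    have h2 : ∑ t ∈ Finset.range (d + 1), hn d (fnum Γ) t =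
        ∑ t ∈ Finset.range (d + 1), (finrank ℝ (St Γ p t) : ℤ) :=
      Finset.sum_congr rfl fun t ht => (hh t (by have := Finset.mem_range.1 ht; omega)).symm
    rw [h2] at h1
    exact_mod_cast h1
  have h1 := MM_dim hφ hz (fun t => finrank ℝ (St Γ p t)) (fun t _ => le_rfl) hsum k (by omega)
  have h2 := MM_dim hφ hz (fun t => finrank ℝ (St Γ p t)) (fun t _ => le_rfl) hsum (k + 1)
    (by omega)
  rw [Finset.sum_range_succ] at h2
  have h3 := AA_ge (e := e) hφ k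
  have h4 := AA_le hφ k
  rw [← hh k hk]
  congr 1
  omega

lemma AA_top (h : Hyp Γ d) (hp : ∀ σ ∈ Γ.faces, LinearIndependent ℝ (fun v : σ => p v)) (k : ℕ)
    (hk : d < k) : finrank ℝ (AA Γ p k) = 0 := by
  have hdual := dual_of_li hp
  obtain ⟨φ, hφ⟩ := UNum.exists_coord Γ p h.small hdual
  have h4 := AA_le hφ k
  have h5 : St Γ p k = ⊥ := by
    rw [eq_bot_iff]
    intro l hl
    rw [Submodule.mem_bot]
    funext σ
    by_contra h6
    obtain ⟨h7, h8⟩ := hl.1 σ h6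
    have := h.small σ h7
    omega
  rw [h5, finrank_bot] at h4
  omega

/-- functionals on the quotient -/
lemma exists_lam (T : MvPolynomial V ℝ →ₗ[ℝ] ℝ) (hT : ∀ f ∈ JJ Γ p, T f = 0) :
    ∃ lam : QQ Γ p →ₗ[ℝ] ℝ, ∀ f, lam (Ideal.Quotient.mk (JJ Γ p) f) = T f := by
  let L := (Submodule.liftQ ((JJ Γ p).restrictScalars ℝ) T (by
      intro f hf
      exact hT f hf)).comp
    (Submodule.Quotient.restrictScalarsEquiv ℝ (JJ Γ p)).symm.toLinearMap
  exact ⟨L, fun f => rfl⟩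

/-- the alternating sum `h_a - h_{a-1} + ...` -/
def altsum (h : ℕ → ℤ) : ℕ → ℤ
  | 0 => h 0
  | (a + 1) => h (a + 1) - altsum h a

/-- the criterion in the quotient ring -/
theorem crit (lam : QQ Γ p →ₗ[ℝ] ℝ) (a : ℕ) {m : ℕ} (ℓ g : Fin m → QQ Γ p)
    (hℓ : ∀ j, ℓ j ∈ AA Γ p 1) (hg : ∀ j, g j ∈ AA Γ p 1) (hsq : ∑ j, ℓ j ^ 2 = 0)
    (U : Submodule ℝ (QQ Γ p)) (hU : U ≤ AA Γ p a)
    (hpos : ∀ f ∈ U, f ≠ 0 → 0 < lam ((∑ j, ℓ j * g j) * f ^ 2)) :
    2 * finrank ℝ U ≤ finrank ℝ (AA Γ p (a + 1)) := by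
  have hfin : FiniteDimensional ℝ U := Submodule.finiteDimensional_of_le hU
  have h1 : ∀ x ∈ AA Γ p 1, ∀ f ∈ U, x * f ∈ AA Γ p (a + 1) := by
    intro x hx f hf
    have := AA_mul 1 a x f hx (hU hf)
    rwa [add_comm] at this
  refine Pool.Agent.H128.Clif.core lam U (AA Γ p (a + 1)) ℓ g (fun j => h1 _ (hℓ j))
    (fun j => h1 _ (hg j)) (fun f _ g _ => ?_) hpos
  rw [hsq, zero_mul, map_zero]

/-- the Hodge-Riemann relations below the middle -/
def HR (Γ : Cx V) (p : V → (Fin d → ℝ)) (lam : QQ Γ p →ₗ[ℝ] ℝ) (ℓ₀ : QQ Γ p) : Prop :=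
  ∀ i, 2 * i < d → ∀ x ∈ AA Γ p i, ℓ₀ ^ (d - 2 * i + 1) * x = 0 → x ≠ 0 →
    0 < (-1 : ℝ) ^ i * lam (ℓ₀ ^ (d - 2 * i) * x ^ 2)

/-- primitive elements -/
noncomputable def Pr (Γ : Cx V) (p : V → (Fin d → ℝ)) (ℓ₀ : QQ Γ p) (a : ℕ) :
    Submodule ℝ (QQ Γ p) :=
  AA Γ p a ⊓ LinearMap.ker (LinearMap.mulLeft ℝ (ℓ₀ ^ (d - 2 * a + 1)))

lemma mem_Pr (ℓ₀ : QQ Γ p) (a : ℕ) (x : QQ Γ p) :
    x ∈ Pr Γ p ℓ₀ a ↔ x ∈ AA Γ p a ∧ ℓ₀ ^ (d - 2 * a + 1) * x = 0 := Iff.rfl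

lemma pow_AA (ℓ₀ : QQ Γ p) (h0 : ℓ₀ ∈ AA Γ p 1) (n : ℕ) : ℓ₀ ^ n ∈ AA Γ p n := by
  induction n with
  | zero =>
    rw [pow_zero]
    exact mem_AA 0 1 (isHomogeneous_one _ _)
  | succ n ih =>
    rw [pow_succ]
    exact AA_mul n 1 _ _ ih h0

lemma Pr_dim (h : Hyp Γ d) (hd : 1 ≤ d)
    (hp : ∀ σ ∈ Γ.faces, LinearIndependent ℝ (fun v : σ => p v)) (ℓ₀ : QQ Γ p)
    (h0 : ℓ₀ ∈ AA Γ p 1) (a : ℕ) (ha : 2 * a < d) :
    hn d (fnum Γ) a - (if a = 0 then 0 else hn d (fnum Γ) (a - 1)) ≤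
      (finrank ℝ (Pr Γ p ℓ₀ a) : ℤ) := by
  have h1 : FiniteDimensional ℝ (AA Γ p a) := inferInstance
  let q : (AA Γ p a) →ₗ[ℝ] QQ Γ p := (LinearMap.mulLeft ℝ (ℓ₀ ^ (d - 2 * a + 1))).domRestrict (AA Γ p a)
  have h2 := LinearMap.finrank_range_add_finrank_ker q
  have h3 : finrank ℝ (LinearMap.range q) ≤ finrank ℝ (AA Γ p (d - a + 1)) := by
    refine Submodule.finrank_mono ?_
    rintro _ ⟨x, rfl⟩
    have h4 := AA_mul _ _ _ _ (pow_AA ℓ₀ h0 (d - 2 * a + 1)) x.2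
    have h5 : d - 2 * a + 1 + a = d - a + 1 := by omega
    rw [h5] at h4
    exact h4
  have h4 : finrank ℝ (LinearMap.ker q) ≤ finrank ℝ (Pr Γ p ℓ₀ a) := by
    have hfin : FiniteDimensional ℝ (Pr Γ p ℓ₀ a) :=
      Submodule.finiteDimensional_of_le (inf_le_left : Pr Γ p ℓ₀ a ≤ AA Γ p a)
    have h5 : (LinearMap.ker q).map (AA Γ p a).subtype ≤ Pr Γ p ℓ₀ a := by
      rintro _ ⟨x, hx, rfl⟩
      exact ⟨x.2, hx⟩
    have h6 := Submodule.finrank_mono h5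
    rwa [Submodule.finrank_map_subtype_eq] at h6
  have h5 := AA_dim h hd hp a (by omega)
  by_cases ha0 : a = 0
  · subst ha0
    rw [if_pos rfl]
    have h6 := AA_top h hp (d - 0 + 1) (by omega)
    omega
  · rw [if_neg ha0]
    have h6 := AA_dim h hd hp (d - a + 1) (by omega)
    have h7 := hsymm h hd (a - 1) (by omega)
    have h8 : d - (a - 1) = d - a + 1 := by omega
    rw [h8] at h7
    omega

/-- definite subspaces from the Hodge-Riemann relations -/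
theorem exists_U (h : Hyp Γ d) (hd : 1 ≤ d)
    (hp : ∀ σ ∈ Γ.faces, LinearIndependent ℝ (fun v : σ => p v)) (lam : QQ Γ p →ₗ[ℝ] ℝ)
    (ℓ₀ : QQ Γ p) (h0 : ℓ₀ ∈ AA Γ p 1) (hHR : HR Γ p lam ℓ₀) :
    ∀ a, 2 * a < d → ∃ U : Submodule ℝ (QQ Γ p), U ≤ AA Γ p a ∧
      (∀ x ∈ U, x ≠ 0 → 0 < (-1 : ℝ) ^ a * lam (ℓ₀ ^ (d - 2 * a) * x ^ 2)) ∧
      altsum (hn d (fnum Γ)) a ≤ (finrank ℝ U : ℤ) := by
  intro a
  induction a using Nat.strong_induction_on with
  | _ a ih =>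
    intro ha
    have hP := Pr_dim h hd hp ℓ₀ h0 a ha
    match a, ih, ha, hP with
    | 0, ih, ha, hP =>
      refine ⟨Pr Γ p ℓ₀ 0, inf_le_left, fun x hx hx0 => hHR 0 ha x hx.1 hx.2 hx0, ?_⟩
      rw [if_pos rfl] at hP
      show hn d (fnum Γ) 0 ≤ _
      omega
    | 1, ih, ha, hP =>
      refine ⟨Pr Γ p ℓ₀ 1, inf_le_left, fun x hx hx0 => hHR 1 ha x hx.1 hx.2 hx0, ?_⟩
      rw [if_neg one_ne_zero] at hP
      exact hP
    | (a + 2), ih, ha, hP =>
      obtain ⟨U, hU1, hU2, hU3⟩ := ih a (by omega) (by omega)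
      have hUfin : FiniteDimensional ℝ U := Submodule.finiteDimensional_of_le hU1
      have hPfin : FiniteDimensional ℝ (Pr Γ p ℓ₀ (a + 2)) :=
        Submodule.finiteDimensional_of_le (inf_le_left : Pr Γ p ℓ₀ (a + 2) ≤ AA Γ p (a + 2))
      let g : (Pr Γ p ℓ₀ (a + 2) × U) →ₗ[ℝ] QQ Γ p :=
        (Pr Γ p ℓ₀ (a + 2)).subtype.coprod ((LinearMap.mulLeft ℝ (ℓ₀ ^ 2)).comp U.subtype)
      have hg : ∀ x, g x = (x.1 : QQ Γ p) + ℓ₀ ^ 2 * (x.2 : QQ Γ p) := fun x => rfl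
      have hpos : ∀ x, x ≠ 0 → 0 < (-1 : ℝ) ^ (a + 2) *
          lam (ℓ₀ ^ (d - 2 * (a + 2)) * g x ^ 2) := by
        intro x hx
        have hy := (mem_Pr ℓ₀ (a + 2) (x.1 : QQ Γ p)).1 x.1.2
        have e1 : ℓ₀ ^ (d - 2 * (a + 2)) * g x ^ 2 =
            ℓ₀ ^ (d - 2 * (a + 2)) * (x.1 : QQ Γ p) ^ 2 + ℓ₀ ^ (d - 2 * a) * (x.2 : QQ Γ p) ^ 2 := by
          have e2 : ℓ₀ ^ (d - 2 * a) = ℓ₀ ^ (d - 2 * (a + 2)) * ℓ₀ ^ 4 := by
            rw [← pow_add]
            congr 1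
            omega
          have e3 : ℓ₀ ^ (d - 2 * (a + 2) + 1) = ℓ₀ ^ (d - 2 * (a + 2)) * ℓ₀ := pow_succ _ _
          have e4 := hy.2
          rw [e3] at e4
          rw [hg, e2]
          linear_combination (2 * ℓ₀ * (x.2 : QQ Γ p)) * e4
        rw [e1, map_add, mul_add]
        have e5 : (-1 : ℝ) ^ (a + 2) = (-1) ^ a := by rw [pow_add]; norm_num
        have n1 : 0 ≤ (-1 : ℝ) ^ (a + 2) * lam (ℓ₀ ^ (d - 2 * (a + 2)) * (x.1 : QQ Γ p) ^ 2) := by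
          by_cases h1 : (x.1 : QQ Γ p) = 0
          · rw [h1, zero_pow two_ne_zero, mul_zero, map_zero, mul_zero]
          · exact (hHR (a + 2) ha _ hy.1 hy.2 h1).le
        have n2 : 0 ≤ (-1 : ℝ) ^ (a + 2) * lam (ℓ₀ ^ (d - 2 * a) * (x.2 : QQ Γ p) ^ 2) := by
          rw [e5]
          by_cases h1 : (x.2 : QQ Γ p) = 0
          · rw [h1, zero_pow two_ne_zero, mul_zero, map_zero, mul_zero]
          · exact (hU2 _ x.2.2 h1).le
        by_cases h1 : (x.1 : QQ Γ p) = 0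
        · have h2 : (x.2 : QQ Γ p) ≠ 0 := by
            intro h2
            exact hx (Prod.ext (Subtype.ext h1) (Subtype.ext h2))
          have n3 := hU2 _ x.2.2 h2
          rw [← e5] at n3
          linarith
        · have n3 := hHR (a + 2) ha _ hy.1 hy.2 h1
          linarith
      have hinj : Function.Injective g := by
        rw [← LinearMap.ker_eq_bot, LinearMap.ker_eq_bot']
        intro x hx
        by_contra h1
        have := hpos x h1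
        rw [hx, zero_pow two_ne_zero, mul_zero, map_zero, mul_zero] at this
        exact lt_irrefl _ this
      refine ⟨LinearMap.range g, ?_, ?_, ?_⟩
      · rintro _ ⟨x, rfl⟩
        rw [hg]
        refine Submodule.add_mem _ x.1.2.1 ?_
        have := AA_mul 2 a _ _ (pow_AA ℓ₀ h0 2) (hU1 x.2.2)
        rwa [add_comm 2 a] at this
      · rintro _ ⟨x, rfl⟩ hx0
        refine hpos x fun h1 => hx0 ?_
        rw [h1, map_zero]
      · rw [LinearMap.finrank_range_of_inj hinj, Module.finrank_prod]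
        rw [if_neg (by omega)] at hP
        have h9 : a + 2 - 1 = a + 1 := by omega
        rw [h9] at hP
        show hn d (fnum Γ) (a + 2) - (hn d (fnum Γ) (a + 1) - altsum (hn d (fnum Γ)) a) ≤ _
        push_cast
        linarith

/-- the inequalities in the quotient ring -/
theorem ineq (h : Hyp Γ d) (hd : 1 ≤ d)
    (hp : ∀ σ ∈ Γ.faces, LinearIndependent ℝ (fun v : σ => p v)) (lam : QQ Γ p →ₗ[ℝ] ℝ)
    (ℓ₀ : QQ Γ p) (h0 : ℓ₀ ∈ AA Γ p 1) (hHR : HR Γ p lam ℓ₀) {m : ℕ} (ℓ : Fin m → QQ Γ p)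
    (hℓ : ∀ j, ℓ j ∈ AA Γ p 1) (hsq : ℓ₀ ^ 2 + ∑ j, ℓ j ^ 2 = 0) (a : ℕ) (ha : 2 * (a + 1) ≤ d) :
    2 * altsum (hn d (fnum Γ)) a ≤ hn d (fnum Γ) (a + 1) := by
  obtain ⟨U, hU1, hU2, hU3⟩ := exists_U h hd hp lam ℓ₀ h0 hHR a (by omega)
  have h1 := crit ((-1 : ℝ) ^ a • lam.comp (LinearMap.mulLeft ℝ (ℓ₀ ^ (d - 2 * (a + 1))))) a
    (Fin.cons ℓ₀ ℓ : Fin (m + 1) → QQ Γ p) (Fin.cons ℓ₀ (fun _ => 0) : Fin (m + 1) → QQ Γ p)
    (fun j => by
      refine Fin.cases ?_ (fun j => ?_) j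
      · exact h0
      · exact hℓ j)
    (fun j => by
      refine Fin.cases ?_ (fun j => ?_) j
      · exact h0
      · exact Submodule.zero_mem _)
    (by rw [Fin.sum_univ_succ]; exact hsq) U hU1 (fun f hf hf0 => by
      have h2 := hU2 f hf hf0
      have h4 : ∑ j, (Fin.cons ℓ₀ ℓ : Fin (m + 1) → QQ Γ p) j *
          (Fin.cons ℓ₀ (fun _ => 0) : Fin (m + 1) → QQ Γ p) j = ℓ₀ ^ 2 := by
        rw [Fin.sum_univ_succ, Finset.sum_eq_zero, add_zero]
        · rw [Fin.cons_zero, Fin.cons_zero, pow_two]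
        · intro j _
          rw [Fin.cons_succ, Fin.cons_succ, mul_zero]
      have h3 : ℓ₀ ^ (d - 2 * (a + 1)) * (ℓ₀ ^ 2 * f ^ 2) = ℓ₀ ^ (d - 2 * a) * f ^ 2 := by
        rw [← mul_assoc, ← pow_add]
        congr 2
        omega
      rw [h4, LinearMap.smul_apply, LinearMap.comp_apply, LinearMap.mulLeft_apply, h3,
        smul_eq_mul]
      exact h2)
  have h2 := AA_dim h hd hp (a + 1) (by omega)
  rw [← h2]
  have h3 : (2 * (finrank ℝ U : ℤ)) ≤ (finrank ℝ (AA Γ p (a + 1)) : ℤ) := by exact_mod_cast h1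
  linarith

/-- the criterion for polynomials -/
theorem crit_poly (h : Hyp Γ d) (hd : 1 ≤ d)
    (hp : ∀ σ ∈ Γ.faces, LinearIndependent ℝ (fun v : σ => p v)) (T : MvPolynomial V ℝ →ₗ[ℝ] ℝ)
    (hT : ∀ f ∈ JJ Γ p, T f = 0) (k : ℕ) (hk : k < d) (q : MvPolynomial V ℝ)
    (hq : ∃ (m : ℕ) (ℓ g : Fin m → QQ Γ p), (∀ j, ℓ j ∈ AA Γ p 1) ∧ (∀ j, g j ∈ AA Γ p 1) ∧
      ∑ j, ℓ j ^ 2 = 0 ∧ Ideal.Quotient.mk (JJ Γ p) q = ∑ j, ℓ j * g j)
    (U : Submodule ℝ (MvPolynomial V ℝ)) (hU : ∀ f ∈ U, f.IsHomogeneous k)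
    (hpos : ∀ f ∈ U, f ≠ 0 → 0 < T (q * f ^ 2)) :
    2 * (finrank ℝ U : ℤ) ≤ hn d (fnum Γ) (k + 1) := by
  obtain ⟨m, ℓ, g, hℓ, hg, hsq, hqe⟩ := hq
  obtain ⟨lam, hlam⟩ := exists_lam T hT
  let π : MvPolynomial V ℝ →ₗ[ℝ] QQ Γ p := (Ideal.Quotient.mkₐ ℝ (JJ Γ p)).toLinearMap
  have hπ : ∀ f, π f = Ideal.Quotient.mk (JJ Γ p) f := fun f => rfl
  have hinj : ∀ f ∈ U, π f = 0 → f = 0 := by
    intro f hf h0
    by_contra h1
    have h2 := hpos f hf h1
    have h3 : q * f ^ 2 ∈ JJ Γ p := by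
      rw [pow_two f]
      exact Ideal.mul_mem_left _ _ (Ideal.mul_mem_left _ _ (Ideal.Quotient.eq_zero_iff_mem.1 h0))
    rw [hT _ h3] at h2
    exact lt_irrefl _ h2
  have h1 := crit lam k ℓ g hℓ hg hsq (U.map π) (by
      rintro _ ⟨f, hf, rfl⟩
      exact mem_AA k f (hU f hf)) (by
      rintro _ ⟨f, hf, rfl⟩ hf0
      have h2 : f ≠ 0 := fun h => hf0 (by rw [h, map_zero])
      have h3 := hpos f hf h2
      rw [← hlam, map_mul, map_pow, hqe] at h3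
      exact h3)
  have h2 : finrank ℝ (U.map π) = finrank ℝ U := by
    refine (LinearEquiv.finrank_eq (LinearEquiv.ofBijective
      ((π.domRestrict U).codRestrict (U.map π) fun x => ⟨x, x.2, rfl⟩) ⟨?_, ?_⟩)).symm
    · rw [← LinearMap.ker_eq_bot, LinearMap.ker_eq_bot']
      intro x hx
      exact Subtype.ext (hinj x x.2 (congrArg Subtype.val hx))
    · rintro ⟨_, ⟨f, hf, rfl⟩⟩
      exact ⟨⟨f, hf⟩, rfl⟩
  rw [h2] at h1
  rw [← AA_dim h hd hp (k + 1) (by omega)]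
  exact_mod_cast h1

/-- quadrics -/
lemma quadric (q : MvPolynomial V ℝ) (hq : q.IsHomogeneous 2) :
    ∃ g : V → MvPolynomial V ℝ, (∀ v, (g v).IsHomogeneous 1) ∧ q = ∑ v, X v * g v := by
  rw [q.as_sum]
  have h1 : ∀ m ∈ q.support, ∃ g : V → MvPolynomial V ℝ, (∀ v, (g v).IsHomogeneous 1) ∧
      monomial m (coeff m q) = ∑ v, X v * g v := by
    intro m hm
    have h2 := hdeg hq m hm
    obtain ⟨v, hv⟩ : ∃ v, v ∈ m.support := by
      by_contra h3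
      push Not at h3
      have h4 : m = 0 := by
        ext v
        exact Finsupp.notMem_support_iff.1 (h3 v)
      rw [h4, map_zero] at h2
      omega
    have h5 : Finsupp.single v 1 ≤ m := by
      intro w
      by_cases hw : w = v
      · subst hw
        rw [Finsupp.single_eq_same]
        exact Nat.one_le_iff_ne_zero.2 (Finsupp.mem_support_iff.1 hv)
      · rw [Finsupp.single_eq_of_ne hw]
        exact Nat.zero_le _
    have h6 : (m - Finsupp.single v 1).degree = 1 := by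
      have h7 : (m - Finsupp.single v 1).degree + (Finsupp.single v 1).degree = m.degree := by
        rw [← map_add, tsub_add_cancel_of_le h5]
      rw [Finsupp.degree_single, h2] at h7
      omega
    classical
    refine ⟨fun w => if w = v then monomial (m - Finsupp.single v 1) (coeff m q) else 0,
      fun w => ?_, ?_⟩
    · show IsHomogeneous (if w = v then monomial (m - Finsupp.single v 1) (coeff m q) else 0) 1
      split_ifs
      · exact isHomogeneous_monomial _ h6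
      · exact isHomogeneous_zero _ _ _
    · rw [Finset.sum_eq_single_of_mem v (Finset.mem_univ _)]
      · show _ = X v * (if v = v then monomial (m - Finsupp.single v 1) (coeff m q) else 0)
        rw [if_pos rfl, X, monomial_mul, one_mul, add_comm, tsub_add_cancel_of_le h5]
      · intro w _ hw
        show X w * (if w = v then monomial (m - Finsupp.single v 1) (coeff m q) else 0) = 0
        rw [if_neg hw, mul_zero]
  classical
  have h2 : ∀ s : Finset (V →₀ ℕ), s ⊆ q.support → ∃ g : V → MvPolynomial V ℝ,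
      (∀ v, (g v).IsHomogeneous 1) ∧ ∑ m ∈ s, monomial m (coeff m q) = ∑ v, X v * g v := by
    intro s
    induction s using Finset.induction_on with
    | empty =>
      intro _
      exact ⟨fun _ => 0, fun _ => isHomogeneous_zero _ _ _, by simp⟩
    | insert a s ha ih =>
      intro hs
      obtain ⟨g, hg, hg2⟩ := ih fun x hx => hs (Finset.mem_insert_of_mem hx)
      obtain ⟨g', hg', hg2'⟩ := h1 a (hs (Finset.mem_insert_self a s))
      refine ⟨fun v => g' v + g v, fun v => (hg' v).add (hg v), ?_⟩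
      rw [Finset.sum_insert ha, hg2, hg2', ← Finset.sum_add_distrib]
      exact Finset.sum_congr rfl fun v _ => (mul_add _ _ _).symm
  exact h2 _ (Finset.Subset.refl _)

end Pool.Agent.H128.SDim
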