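import Pool.Graph.R_seed8.H252R2.Top2

set_option autoImplicit false
set_option linter.unusedSectionVars false
set_option linter.unnecessarySimpa false

/-! The Artinian reduction of the face ring of a simplicial complex over the reals. -/

namespace Pool.Agent.H128.SRing

open Pool.Agent.Helper611 Pool.Agent.Helper611.ZBase Pool.Agent.Helper611.KRel
  Pool.Agent.Helper611.KVal Pool.Agent.Helper611.UStr Pool.Agent.Helper611.UVal
  Pool.Agent.H252R2.Lef1 Pool.Agent.H252R2.Lef2 Pool.Agent.H252R2.Lef7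
  Pool.Agent.H252R2.CDNum
open MvPolynomial Module

variable {V : Type} [Fintype V] [LinearOrder V] {d : ℕ}

/-- the ideal of the face ring modulo the linear forms given by the coordinates of `p` -/
noncomputable def JJ (Γ : Cx V) (p : V → (Fin d → ℝ)) : Ideal (MvPolynomial V ℝ) :=
  Ideal.span ({f | ∃ N : Finset V, N ∉ Γ.faces ∧ f = ∏ v ∈ N, X v} ∪
    {f | ∃ i : Fin d, f = ∑ v, C (p v i) * X v})

/-- the ring `ℝ[Γ]/(θ)` -/
abbrev QQ (Γ : Cx V) (p : V → (Fin d → ℝ)) : Type := MvPolynomial V ℝ ⧸ JJ Γ p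

/-- its graded pieces -/
noncomputable def AA (Γ : Cx V) (p : V → (Fin d → ℝ)) (k : ℕ) : Submodule ℝ (QQ Γ p) :=
  (homogeneousSubmodule V ℝ k).map (Ideal.Quotient.mkₐ ℝ (JJ Γ p)).toLinearMap

variable {Γ : Cx V} {p : V → (Fin d → ℝ)} {φ : Finset V → V → Module.Dual ℝ (Fin d → ℝ)}
  {e : Fin d → ℝ}

lemma mem_AA (k : ℕ) (f : MvPolynomial V ℝ) (hf : f.IsHomogeneous k) :
    (Ideal.Quotient.mk (JJ Γ p) f) ∈ AA Γ p k := ⟨f, hf, rfl⟩

instance AA_fin (k : ℕ) : FiniteDimensional ℝ (AA Γ p k) := by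
  have h1 : (AA Γ p k).FG := (homogeneousSubmodule_fg V ℝ k).map _
  exact Module.Finite.iff_fg.2 h1

lemma AA_mul (s t : ℕ) (x y : QQ Γ p) (hx : x ∈ AA Γ p s) (hy : y ∈ AA Γ p t) :
    x * y ∈ AA Γ p (s + t) := by
  obtain ⟨f, hf, rfl⟩ := hx
  obtain ⟨g, hg, rfl⟩ := hy
  exact ⟨f * g, hf.mul hg, rfl⟩

lemma monomial_ind (σ : Finset V) : (monomial (ind σ) (1 : ℝ)) = ∏ v ∈ σ, X v := by
  induction σ using Finset.induction_on with
  | empty =>
    have : ind (∅ : Finset V) = 0 := by
      unfold ind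
      simp
    rw [this, Finset.prod_empty]
    rfl
  | insert x s hx ih =>
    rw [ind_insert s x hx, Finset.prod_insert hx, ← ih, mul_comm, X, monomial_mul, one_mul]

lemma monomial_J (m : V →₀ ℕ) (hm : m.support ∉ Γ.faces) : monomial m (1 : ℝ) ∈ JJ Γ p := by
  have h1 : ind m.support ≤ m := by
    intro v
    rw [ind_apply]
    split_ifs with h
    · exact Nat.one_le_iff_ne_zero.2 (Finsupp.mem_support_iff.1 h)
    · exact Nat.zero_le _
  have h2 : monomial m (1 : ℝ) = monomial (m - ind m.support) 1 * monomial (ind m.support) 1 := by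
    rw [monomial_mul, one_mul, tsub_add_cancel_of_le h1]
  rw [h2]
  refine Ideal.mul_mem_left _ _ (Ideal.subset_span (Or.inl ⟨m.support, hm, monomial_ind _⟩))

lemma theta_J (η : Module.Dual ℝ (Fin d → ℝ)) : (∑ v, C (η (p v)) * X v) ∈ JJ Γ p := by
  have h1 : ∀ w : Fin d → ℝ, η w = ∑ i, η (Pi.single i 1) * w i := by
    intro w
    conv_lhs => rw [pi_eq_sum_univ' w]
    rw [map_sum]
    refine Finset.sum_congr rfl fun i _ => ?_
    rw [map_smul, smul_eq_mul, mul_comm]
  have h2 : (∑ v, C (η (p v)) * X v) =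
      ∑ i, C (η (Pi.single i 1)) * ∑ v, (C (p v i) * X v : MvPolynomial V ℝ) := by
    simp only [Finset.mul_sum]
    rw [Finset.sum_comm]
    refine Finset.sum_congr rfl fun v _ => ?_
    rw [h1 (p v), map_sum, Finset.sum_mul]
    refine Finset.sum_congr rfl fun i _ => ?_
    rw [C_mul, mul_assoc]
  rw [h2]
  exact Submodule.sum_mem _ fun i _ => Ideal.mul_mem_left _ _
    (Ideal.subset_span (Or.inr ⟨i, rfl⟩))

open Classical in
/-- monomials of degree `k` in the quotient -/
noncomputable def aa (Γ : Cx V) (p : V → (Fin d → ℝ)) (k : ℕ) (m : V →₀ ℕ) : AA Γ p k :=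
  if h : m.degree = k then ⟨Ideal.Quotient.mk (JJ Γ p) (monomial m 1),
    mem_AA k _ (isHomogeneous_monomial _ h)⟩ else 0

lemma aa_pos (k : ℕ) (m : V →₀ ℕ) (h : m.degree = k) :
    ((aa Γ p k m : AA Γ p k) : QQ Γ p) = Ideal.Quotient.mk (JJ Γ p) (monomial m 1) := by
  unfold aa
  rw [dif_pos h]

lemma aa_neg (k : ℕ) (m : V →₀ ℕ) (h : m.degree ≠ k) : aa Γ p k m = 0 := by
  unfold aa
  rw [dif_neg h]

lemma aa_out (k : ℕ) (m : V →₀ ℕ) (h : m.support ∉ Γ.faces) : aa Γ p k m = 0 := by
  by_cases hm : m.degree = k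
  · apply Subtype.ext
    rw [aa_pos k m hm]
    exact Ideal.Quotient.eq_zero_iff_mem.2 (monomial_J m h)
  · exact aa_neg k m hm

lemma aa_rel (k : ℕ) (T : Module.Dual ℝ (AA Γ p k)) (m : V →₀ ℕ) (hm : m.degree + 1 = k)
    (η : Module.Dual ℝ (Fin d → ℝ)) :
    ∑ v, η (p v) * T (aa Γ p k (m + Finsupp.single v 1)) = 0 := by
  have h1 : ∑ v, η (p v) • aa Γ p k (m + Finsupp.single v 1) = 0 := by
    apply Subtype.ext
    rw [Submodule.coe_sum, Submodule.coe_zero]
    have h2 : ∀ v, ((η (p v) • aa Γ p k (m + Finsupp.single v 1) : AA Γ p k) : QQ Γ p) =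
        Ideal.Quotient.mk (JJ Γ p) (monomial m 1 * (C (η (p v)) * X v)) := by
      intro v
      rw [Submodule.coe_smul, aa_pos k _ (by rw [map_add, Finsupp.degree_single, hm])]
      have h3 : monomial (m + Finsupp.single v 1) (1 : ℝ) = monomial m 1 * X v := by
        rw [X, monomial_mul, one_mul]
      rw [h3]
      have h4 : η (p v) • Ideal.Quotient.mk (JJ Γ p) (monomial m 1 * X v) =
          Ideal.Quotient.mk (JJ Γ p) (η (p v) • (monomial m 1 * X v)) := rfl
      rw [h4, MvPolynomial.smul_eq_C_mul]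
      congr 1
      ring
    rw [Finset.sum_congr rfl fun v _ => h2 v, ← map_sum, ← Finset.mul_sum]
    exact Ideal.Quotient.eq_zero_iff_mem.2 (Ideal.mul_mem_left _ _ (theta_J η))
  have h2 := congrArg T h1
  rw [map_sum, map_zero] at h2
  rw [← h2]
  exact Finset.sum_congr rfl fun v _ => by rw [map_smul, smul_eq_mul]

lemma hdeg {f : MvPolynomial V ℝ} {k : ℕ} (hf : f.IsHomogeneous k) (m : V →₀ ℕ)
    (hm : m ∈ f.support) : m.degree = k := by
  by_contra h
  exact (mem_support_iff.1 hm) (hf.coeff_eq_zero h)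

lemma aa_span (k : ℕ) (T : Module.Dual ℝ (AA Γ p k)) (h : ∀ m, m.degree = k → T (aa Γ p k m) = 0) :
    T = 0 := by
  have h1 : ∀ f : MvPolynomial V ℝ, ∀ hf : f.IsHomogeneous k,
      T ⟨Ideal.Quotient.mk (JJ Γ p) f, mem_AA k f hf⟩ = 0 := by
    intro f hf
    have h2 : (⟨Ideal.Quotient.mk (JJ Γ p) f, mem_AA k f hf⟩ : AA Γ p k) =
        ∑ m ∈ f.support, coeff m f • aa Γ p k m := by
      apply Subtype.ext
      rw [Submodule.coe_sum]
      show Ideal.Quotient.mk (JJ Γ p) f = _
      conv_lhs => rw [f.as_sum]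
      rw [map_sum]
      refine Finset.sum_congr rfl fun m hm => ?_
      rw [Submodule.coe_smul, aa_pos k m (hdeg hf m hm)]
      have h4 : coeff m f • Ideal.Quotient.mk (JJ Γ p) (monomial m 1) =
          Ideal.Quotient.mk (JJ Γ p) (coeff m f • monomial m 1) := rfl
      rw [h4, smul_monomial, smul_eq_mul, mul_one]
    rw [h2, map_sum]
    refine Finset.sum_eq_zero fun m hm => ?_
    rw [map_smul, h m (hdeg hf m hm), smul_zero]
  ext x
  obtain ⟨y, hy⟩ := x
  obtain ⟨f, hf, rfl⟩ := hy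
  exact h1 f hf

/-- the squarefree part of a functional -/
noncomputable def psi (Γ : Cx V) (p : V → (Fin d → ℝ)) (k : ℕ) :
    Module.Dual ℝ (AA Γ p k) →ₗ[ℝ] (Finset V → ℝ) where
  toFun := fun T σ => T (aa Γ p k (ind σ))
  map_add' := fun _ _ => rfl
  map_smul' := fun _ _ => rfl

lemma psi_St (hφ : Coord Γ p φ) (k : ℕ) (T : Module.Dual ℝ (AA Γ p k)) :
    psi Γ p k T ∈ St Γ p k := by
  refine ⟨fun σ hσ => ?_, fun ρ hρ => ?_⟩
  · have hσ' : T (aa Γ p k (ind σ)) ≠ 0 := hσ
    constructor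
    · by_contra h
      exact hσ' (by rw [aa_out k _ (by rwa [ind_support]), map_zero])
    · by_contra h
      exact hσ' (by rw [aa_neg k _ (by rwa [ind_degree]), map_zero])
  · refine mem_span_of hφ ρ hρ _ fun ψ hψ => ?_
    by_cases hc : ρ.card + 1 = k
    · have h1 := aa_rel k T (ind ρ) (by rw [ind_degree, hc]) ψ
      rw [map_sum, ← h1, ← Finset.sum_add_sum_compl ρ]
      have h2 : ∑ v ∈ ρ, ψ (p v) * T (aa Γ p k (ind ρ + Finsupp.single v 1)) = 0 :=
        Finset.sum_eq_zero fun v hv => by rw [hψ v hv, zero_mul]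
      rw [h2, zero_add]
      refine Finset.sum_congr rfl fun v hv => ?_
      have hv' := Finset.mem_compl.1 hv
      rw [map_smul, smul_eq_mul, mul_comm]
      show _ = ψ (p v) * _
      congr 1
      show T (aa Γ p k (ind (insert v ρ))) = _
      rw [ind_insert _ _ hv']
    · rw [map_sum]
      refine Finset.sum_eq_zero fun v hv => ?_
      have hv' := Finset.mem_compl.1 hv
      have h3 : psi Γ p k T (insert v ρ) = 0 := by
        show T (aa Γ p k (ind (insert v ρ))) = 0
        rw [aa_neg k _ (by rw [ind_degree, Finset.card_insert_of_notMem hv']; exact hc), map_zero]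
      rw [h3, zero_smul, map_zero]

lemma psi_inj (hφ : Coord Γ p φ) (k : ℕ) (T : Module.Dual ℝ (AA Γ p k)) (h : psi Γ p k T = 0) :
    T = 0 := by
  refine aa_span k T ?_
  exact mono_zero hφ k (fun m => T (aa Γ p k m)) (fun m _ hs => by
      show T (aa Γ p k m) = 0
      rw [aa_out k m hs, map_zero])
    (fun m hm η => aa_rel k T m hm η) (fun σ _ _ => congrFun h σ)

/-- upper bound for the dimension -/
lemma AA_le (hφ : Coord Γ p φ) (k : ℕ) : finrank ℝ (AA Γ p k) ≤ finrank ℝ (St Γ p k) := by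
  rw [← Subspace.dual_finrank_eq (K := ℝ) (V := AA Γ p k)]
  refine LinearMap.finrank_le_finrank_of_injective
    (f := (psi Γ p k).codRestrict (St Γ p k) (psi_St hφ k)) ?_
  rw [← LinearMap.ker_eq_bot, LinearMap.ker_eq_bot']
  intro T hT
  exact psi_inj hφ k T (congrArg Subtype.val hT)

/-- evaluation in the functions on the facets -/
noncomputable def ev (Γ : Cx V) (φ : Finset V → V → Module.Dual ℝ (Fin d → ℝ)) (e : Fin d → ℝ) :
    MvPolynomial V ℝ →ₐ[ℝ] Rg Γ d ℝ := aeval (xx Γ φ e)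

lemma ev_monomial (m : V →₀ ℕ) (c : ℝ) : ev Γ φ e (monomial m c) = c • xm Γ φ e m := by
  unfold ev
  rw [aeval_monomial, Algebra.smul_def]
  rfl

lemma ev_hom (t : ℕ) (f : MvPolynomial V ℝ) (hf : f.IsHomogeneous t) :
    ev Γ φ e f ∈ NN Γ φ e t := by
  rw [f.as_sum, map_sum]
  refine Submodule.sum_mem _ fun m hm => ?_
  rw [ev_monomial]
  refine Submodule.smul_mem _ _ ?_
  have h1 := xm_mem (Γ := Γ) (φ := φ) (e := e) m
  rwa [hdeg hf m hm] at h1

lemma MM_mul (s t : ℕ) (x y : Rg Γ d ℝ) (hx : x ∈ NN Γ φ e s) (hy : y ∈ MM Γ φ e t) :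
    x * y ∈ MM Γ φ e (s + t) := by
  cases t with
  | zero =>
    rw [MM_zero, Submodule.mem_bot] at hy
    rw [hy, mul_zero]
    exact Submodule.zero_mem _
  | succ t =>
    rw [MM_succ] at hy
    have := NN_mul s t x y hx hy
    exact this

lemma hc_mul (m : V →₀ ℕ) (c : ℝ) (f : MvPolynomial V ℝ) (t : ℕ) :
    homogeneousComponent t (monomial m c * f) =
      if m.degree ≤ t then monomial m c * homogeneousComponent (t - m.degree) f else 0 := by
  ext n
  rw [coeff_homogeneousComponent, coeff_monomial_mul']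
  by_cases hmn : m ≤ n
  · have h1 : n.degree = m.degree + (n - m).degree := by
      rw [← map_add, add_tsub_cancel_of_le hmn]
    by_cases hmt : m.degree ≤ t
    · rw [if_pos hmt, if_pos hmn, coeff_monomial_mul', if_pos hmn, coeff_homogeneousComponent]
      by_cases h : n.degree = t
      · rw [if_pos h, if_pos (by omega)]
      · rw [if_neg h, if_neg (by omega), mul_zero]
    · rw [if_neg hmt, if_neg (by omega), coeff_zero]
  · rw [if_neg hmn, ite_self]
    split_ifs
    · rw [coeff_monomial_mul', if_neg hmn]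
    · rw [coeff_zero]

lemma ev_J (hφ : Coord Γ p φ) (f : MvPolynomial V ℝ) (hf : f ∈ JJ Γ p) :
    ∀ t, ev Γ φ e (homogeneousComponent t f) ∈ MM Γ φ e t := by
  unfold JJ at hf
  induction hf using Submodule.span_induction with
  | mem f hf =>
    intro t
    rcases hf with ⟨N, hN, rfl⟩ | ⟨i, rfl⟩
    · have h1 : (∏ v ∈ N, X v : MvPolynomial V ℝ) ∈ homogeneousSubmodule V ℝ N.card := by
        rw [← monomial_ind]
        exact isHomogeneous_monomial _ (ind_degree N)
      rw [homogeneousComponent_of_mem h1]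
      split_ifs with h
      · rw [← monomial_ind, ev_monomial, xm_not _ (by rwa [ind_support]), smul_zero]
        exact Submodule.zero_mem _
      · rw [map_zero]
        exact Submodule.zero_mem _
    · have h1 : (∑ v, C (p v i) * X v : MvPolynomial V ℝ) ∈ homogeneousSubmodule V ℝ 1 :=
        Submodule.sum_mem _ fun v _ => isHomogeneous_C_mul_X _ _
      rw [homogeneousComponent_of_mem h1]
      split_ifs with h
      · subst h
        rw [MM_succ]
        have h2 := theta (e := e) hφ (LinearMap.proj i : (Fin d → ℝ) →ₗ[ℝ] ℝ)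
        have h3 : ev Γ φ e (∑ v, C (p v i) * X v) =
            ∑ v, (LinearMap.proj i : (Fin d → ℝ) →ₗ[ℝ] ℝ) (p v) • xx Γ φ e v := by
          rw [map_sum]
          refine Finset.sum_congr rfl fun v _ => ?_
          unfold ev
          rw [map_mul, aeval_C, aeval_X, Algebra.smul_def]
          rfl
        rw [h3, h2]
        refine Submodule.smul_mem _ _ (Submodule.subset_span ⟨0, ?_, xm_zero⟩)
        simp
      · rw [map_zero]
        exact Submodule.zero_mem _
  | zero => intro t; rw [map_zero, map_zero]; exact Submodule.zero_mem _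
  | add f g _ _ hf hg =>
    intro t
    rw [map_add, map_add]
    exact Submodule.add_mem _ (hf t) (hg t)
  | smul a f _ hf =>
    intro t
    rw [smul_eq_mul, a.as_sum, Finset.sum_mul, map_sum, map_sum]
    refine Submodule.sum_mem _ fun m _ => ?_
    rw [hc_mul]
    split_ifs with h
    · rw [map_mul, ev_monomial, smul_mul_assoc]
      refine Submodule.smul_mem _ _ ?_
      have h1 := MM_mul m.degree (t - m.degree) _ _ (xm_mem (Γ := Γ) (φ := φ) (e := e) m)
        (hf (t - m.degree))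
      rwa [add_tsub_cancel_of_le h] at h1
    · rw [map_zero]
      exact Submodule.zero_mem _

/-- lower bound for the dimension -/
lemma AA_ge (hφ : Coord Γ p φ) (k : ℕ) :
    finrank ℝ (MM Γ φ e (k + 1)) ≤ finrank ℝ (MM Γ φ e k) + finrank ℝ (AA Γ p k) := by
  have hfin : FiniteDimensional ℝ (homogeneousSubmodule V ℝ k) :=
    Module.Finite.iff_fg.2 (homogeneousSubmodule_fg V ℝ k)
  let q : (homogeneousSubmodule V ℝ k) →ₗ[ℝ] (Rg Γ d ℝ ⧸ MM Γ φ e k) :=
    (Submodule.mkQ (MM Γ φ e k)).comp ((ev Γ φ e).toLinearMap.comp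
      (homogeneousSubmodule V ℝ k).subtype)
  let a : (homogeneousSubmodule V ℝ k) →ₗ[ℝ] QQ Γ p :=
    (Ideal.Quotient.mkₐ ℝ (JJ Γ p)).toLinearMap.comp (homogeneousSubmodule V ℝ k).subtype
  have hra : LinearMap.range a = AA Γ p k := by
    show LinearMap.range ((Ideal.Quotient.mkₐ ℝ (JJ Γ p)).toLinearMap.comp
      (homogeneousSubmodule V ℝ k).subtype) = _
    rw [LinearMap.range_comp, Submodule.range_subtype]
    rfl
  have hker : LinearMap.ker a ≤ LinearMap.ker q := by
    intro f hf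
    have h1 : (f : MvPolynomial V ℝ) ∈ JJ Γ p := Ideal.Quotient.eq_zero_iff_mem.1 hf
    have h2 := ev_J (e := e) hφ _ h1 k
    rw [homogeneousComponent_eq_self f.2] at h2
    show Submodule.Quotient.mk (ev Γ φ e f) = (0 : Rg Γ d ℝ ⧸ MM Γ φ e k)
    exact (Submodule.Quotient.mk_eq_zero _).2 h2
  have h1 := LinearMap.finrank_range_add_finrank_ker a
  have h2 := LinearMap.finrank_range_add_finrank_ker q
  have h3 := Submodule.finrank_mono hker
  rw [hra] at h1
  have h4 : (NN Γ φ e k).map (Submodule.mkQ (MM Γ φ e k)) ≤ LinearMap.range q := by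
    rintro _ ⟨x, hx, rfl⟩
    unfold NN at hx
    induction hx using Submodule.span_induction with
    | mem x hx =>
      obtain ⟨m, hm, rfl⟩ := hx
      refine ⟨⟨monomial m 1, isHomogeneous_monomial _ hm⟩, ?_⟩
      show Submodule.mkQ (MM Γ φ e k) (ev Γ φ e (monomial m 1)) = _
      rw [ev_monomial, one_smul]
    | zero => rw [map_zero]; exact Submodule.zero_mem _
    | add a b _ _ ha hb => rw [map_add]; exact Submodule.add_mem _ ha hb
    | smul r a _ ha => rw [map_smul]; exact Submodule.smul_mem _ _ ha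
  have h5 := Submodule.finrank_mono h4
  have h6 := KDim.fr_map ℝ (Submodule.mkQ (MM Γ φ e k)) (NN Γ φ e k)
  have h7 : (NN Γ φ e k ⊓ LinearMap.ker (Submodule.mkQ (MM Γ φ e k)) : Submodule ℝ _) ≤
      MM Γ φ e k := by
    rw [Submodule.ker_mkQ]
    exact inf_le_right
  have h8 := Submodule.finrank_mono h7
  rw [MM_succ]
  omega

end Pool.Agent.H128.SRing
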